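import Pool.Agent.K1H72.OP.Stm

/-! Project OP, piece OP-15: the main integral (helper66). -/

set_option autoImplicit false

namespace Pool.Agent.K1H66.OP

open MeasureTheory Set K1H72.OP

/-- the sixth moment of the Gaussian -/
theorem six {b : ℝ} (hb : 0 < b) :
    ∫ x : ℝ, x ^ 6 * Real.exp (-b * x ^ 2) = 15 / 8 * (1 / b ^ 3) * √(Real.pi / b) := by
  have h1 : ∫ x : ℝ, x ^ 6 * Real.exp (-b * x ^ 2) =
      2 * ∫ x in Ioi (0 : ℝ), x ^ 6 * Real.exp (-b * x ^ 2) := by
    rw [← integral_comp_abs (f := fun x : ℝ => x ^ 6 * Real.exp (-b * x ^ 2))]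
    congr 1
    funext x
    simp only [sq_abs]
    have : |x| ^ 6 = x ^ 6 := by
      rw [show (6 : ℕ) = 2 * 3 by norm_num, pow_mul, pow_mul, sq_abs]
    rw [this]
  have h2 := integral_rpow_mul_exp_neg_mul_rpow (p := 2) (q := 6) (b := b) (by norm_num)
    (by norm_num) hb
  have h3 : ∫ x in Ioi (0 : ℝ), x ^ 6 * Real.exp (-b * x ^ 2) =
      ∫ x in Ioi (0 : ℝ), x ^ (6 : ℝ) * Real.exp (-b * x ^ (2 : ℝ)) := by
    congr 1
    funext x
    rw [show (6 : ℝ) = ((6 : ℕ) : ℝ) by norm_num, show (2 : ℝ) = ((2 : ℕ) : ℝ) by norm_num,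
      Real.rpow_natCast, Real.rpow_natCast]
  rw [h1, h3, h2]
  have h4 : Real.Gamma ((6 + 1) / 2) = 15 / 8 * √Real.pi := by
    rw [show ((6 : ℝ) + 1) / 2 = 5 / 2 + 1 by norm_num, Real.Gamma_add_one (by norm_num),
      show (5 : ℝ) / 2 = 3 / 2 + 1 by norm_num, Real.Gamma_add_one (by norm_num),
      show (3 : ℝ) / 2 = 1 / 2 + 1 by norm_num, Real.Gamma_add_one (by norm_num),
      Real.Gamma_one_half_eq]
    ring
  have h5 : b ^ (-(6 + 1) / 2 : ℝ) = 1 / b ^ 3 * (1 / √b) := by
    rw [show (-(6 + 1) / 2 : ℝ) = -((3 : ℕ) : ℝ) + -(1 / 2) by norm_num, Real.rpow_add hb,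
      Real.rpow_neg hb.le, Real.rpow_natCast, Real.rpow_neg hb.le, ← Real.sqrt_eq_rpow]
    simp only [one_div]
  rw [h4, h5, Real.sqrt_div' _ hb.le]
  have : 0 < √b := Real.sqrt_pos.2 hb
  field_simp

theorem six_int {b : ℝ} (hb : 0 < b) :
    Integrable fun x : ℝ => x ^ 6 * Real.exp (-b * x ^ 2) := by
  have h := integrable_rpow_mul_exp_neg_mul_sq hb (s := ((6 : ℕ) : ℝ)) (by norm_num)
  simpa only [Real.rpow_natCast] using h

theorem t_INT : S_INT := by
  intro lam hlam
  have hl : 0 < lam := by linarith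
  have hb : 0 < lam / 2 := by positivity
  obtain ⟨s, hs⟩ : ∃ s, s = √(Real.pi / lam) := ⟨_, rfl⟩
  have hs0 : 0 < s := by rw [hs]; exact Real.sqrt_pos.2 (by positivity)
  have h2a : √2 ≤ 142 / 100 := by
    rw [Real.sqrt_le_left (by norm_num)]; norm_num
  have h20 : 0 ≤ √2 := Real.sqrt_nonneg _
  have hs2 : √(Real.pi / (lam / 2)) = √2 * s := by
    rw [hs, ← Real.sqrt_mul (by norm_num)]
    congr 1
    field_simp
  have G1 : ∫ u : ℝ, Real.exp (-(lam / 2) * u ^ 2) = √2 * s := by
    rw [integral_gaussian, hs2]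
  have G0 : ∫ u : ℝ, Real.exp (-lam * u ^ 2) = s := by
    rw [integral_gaussian, hs]
  have I1 : Integrable fun u : ℝ => Real.exp (-(lam / 2) * u ^ 2) := integrable_exp_neg_mul_sq hb
  have I0 : Integrable fun u : ℝ => Real.exp (-lam * u ^ 2) := integrable_exp_neg_mul_sq hl
  have I6 := six_int hb
  have Eup : ∀ u ∈ Icc (-1 : ℝ) 1,
      Real.exp (-(lam * (u ^ 2 / (1 + u ^ 2)))) ≤ Real.exp (-(lam / 2) * u ^ 2) := by
    intro u hu
    apply Real.exp_le_exp.2
    have h1 : u ^ 2 ≤ 1 := by nlinarith [hu.1, hu.2]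
    have h2 : u ^ 2 / 2 ≤ u ^ 2 / (1 + u ^ 2) :=
      div_le_div_of_nonneg_left (by positivity) (by positivity) (by linarith)
    nlinarith
  have Elo : ∀ u : ℝ, Real.exp (-lam * u ^ 2) ≤ Real.exp (-(lam * (u ^ 2 / (1 + u ^ 2)))) := by
    intro u
    apply Real.exp_le_exp.2
    have h2 : u ^ 2 / (1 + u ^ 2) ≤ u ^ 2 := div_le_self (by positivity) (by nlinarith [sq_nonneg u])
    nlinarith
  have hne : ∀ u : ℝ, 1 + u ^ 2 ≠ 0 := fun u => by positivity
  have C1 : Continuous fun u : ℝ => Real.exp (-(lam * (u ^ 2 / (1 + u ^ 2)))) := by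
    refine Real.continuous_exp.comp (Continuous.neg (continuous_const.mul ?_))
    exact (continuous_pow 2).div (by fun_prop) hne
  have C2 : Continuous fun u : ℝ => Real.cos (lam * (u ^ 3 / (1 + u ^ 2))) := by
    refine Real.continuous_cos.comp (continuous_const.mul ?_)
    exact (continuous_pow 3).div (by fun_prop) hne
  constructor
  · -- the lower bound
    have hmono : (∫ u in (-1 : ℝ)..1, (Real.exp (-lam * u ^ 2) -
        lam ^ 2 / 2 * (u ^ 6 * Real.exp (-(lam / 2) * u ^ 2)))) ≤
        ∫ u in (-1 : ℝ)..1, Real.exp (-(lam * (u ^ 2 / (1 + u ^ 2)))) *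
          Real.cos (lam * (u ^ 3 / (1 + u ^ 2))) := by
      refine intervalIntegral.integral_mono_on (by norm_num) ?_ ?_ ?_
      · exact (Continuous.intervalIntegrable (by fun_prop) _ _)
      · exact ((C1.mul C2).intervalIntegrable _ _)
      · intro u hu
        have h1 := Eup u hu
        have h2 := Elo u
        have h3 := Real.one_sub_sq_div_two_le_cos (x := lam * (u ^ 3 / (1 + u ^ 2)))
        have h4 : (lam * (u ^ 3 / (1 + u ^ 2))) ^ 2 ≤ lam ^ 2 * u ^ 6 := by
          have h5 : (u ^ 3 / (1 + u ^ 2)) ^ 2 ≤ u ^ 6 := by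
            rw [div_pow, ← pow_mul]
            have h50 : (0 : ℝ) ≤ u ^ (3 * 2) := by
              rw [pow_mul]; positivity
            refine div_le_self h50 ?_
            nlinarith [sq_nonneg u, sq_nonneg (u ^ 2)]
          rw [mul_pow]
          exact mul_le_mul_of_nonneg_left h5 (by positivity)
        have h0 : 0 < Real.exp (-(lam * (u ^ 2 / (1 + u ^ 2)))) := Real.exp_pos _
        have h6 : 0 ≤ lam ^ 2 * u ^ 6 / 2 := by positivity
        calc Real.exp (-lam * u ^ 2) - lam ^ 2 / 2 * (u ^ 6 * Real.exp (-(lam / 2) * u ^ 2))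
            = Real.exp (-lam * u ^ 2) - lam ^ 2 * u ^ 6 / 2 * Real.exp (-(lam / 2) * u ^ 2) := by
              ring
          _ ≤ Real.exp (-(lam * (u ^ 2 / (1 + u ^ 2)))) -
              lam ^ 2 * u ^ 6 / 2 * Real.exp (-(lam * (u ^ 2 / (1 + u ^ 2)))) := by
              have := mul_le_mul_of_nonneg_left h1 h6
              linarith
          _ = Real.exp (-(lam * (u ^ 2 / (1 + u ^ 2)))) * (1 - lam ^ 2 * u ^ 6 / 2) := by ring
          _ ≤ _ := mul_le_mul_of_nonneg_left (by linarith) h0.le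
    refine le_trans ?_ hmono
    rw [intervalIntegral.integral_sub (Continuous.intervalIntegrable (by fun_prop) _ _)
      (Continuous.intervalIntegrable (by fun_prop) _ _), intervalIntegral.integral_const_mul]
    have A1 : s - Real.exp (-(lam / 2)) * (√2 * s) ≤ ∫ u in (-1 : ℝ)..1, Real.exp (-lam * u ^ 2) := by
      rw [intervalIntegral.integral_of_le (by norm_num)]
      have h1 := integral_add_compl (measurableSet_Ioc (a := (-1 : ℝ)) (b := 1)) I0
      rw [G0] at h1
      have h2 : ∫ u in (Ioc (-1 : ℝ) 1)ᶜ, Real.exp (-lam * u ^ 2) ≤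
          Real.exp (-(lam / 2)) * (√2 * s) := by
        calc ∫ u in (Ioc (-1 : ℝ) 1)ᶜ, Real.exp (-lam * u ^ 2)
            ≤ ∫ u in (Ioc (-1 : ℝ) 1)ᶜ, Real.exp (-(lam / 2)) * Real.exp (-(lam / 2) * u ^ 2) := by
              refine setIntegral_mono_on I0.integrableOn (I1.const_mul _).integrableOn
                measurableSet_Ioc.compl ?_
              intro u hu
              rw [← Real.exp_add]
              apply Real.exp_le_exp.2
              have h3 : 1 ≤ u ^ 2 := by
                by_contra hcon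
                push Not at hcon
                have h4 : |u| < 1 := by
                  rw [← sq_lt_one_iff_abs_lt_one]; exact hcon
                rw [abs_lt] at h4
                exact hu ⟨h4.1, h4.2.le⟩
              nlinarith
          _ ≤ ∫ u, Real.exp (-(lam / 2)) * Real.exp (-(lam / 2) * u ^ 2) := by
              refine setIntegral_le_integral (I1.const_mul _) ?_
              exact Filter.Eventually.of_forall fun u => by positivity
          _ = _ := by rw [integral_const_mul, G1]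
      linarith
    have A2 : ∫ u in (-1 : ℝ)..1, u ^ 6 * Real.exp (-(lam / 2) * u ^ 2) ≤
        15 / 8 * (1 / (lam / 2) ^ 3) * (√2 * s) := by
      rw [intervalIntegral.integral_of_le (by norm_num)]
      refine (setIntegral_le_integral I6 ?_).trans ?_
      · exact Filter.Eventually.of_forall fun u => by positivity
      · rw [six hb, hs2]
    have A3 : lam ^ 2 / 2 * (∫ u in (-1 : ℝ)..1, u ^ 6 * Real.exp (-(lam / 2) * u ^ 2)) ≤
        15 / 2 * (√2 * s) / lam := by
      refine (mul_le_mul_of_nonneg_left A2 (by positivity)).trans (le_of_eq ?_)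
      field_simp
      ring
    have A4 : 15 / 2 * (√2 * s) / lam ≤ 15 / 200 * (√2 * s) := by
      rw [div_le_iff₀ hl]
      have : 0 ≤ √2 * s := by positivity
      nlinarith
    have A5 : Real.exp (-(lam / 2)) ≤ 1 / 1000 := by
      rw [Real.exp_neg, ← one_div]
      refine one_div_le_one_div_of_le (by norm_num) ?_
      have := Real.quadratic_le_exp_of_nonneg (x := lam / 2) (by positivity)
      nlinarith
    have A6 : √2 * s ≤ 142 / 100 * s := mul_le_mul_of_nonneg_right h2a hs0.le
    have A7 : Real.exp (-(lam / 2)) * (√2 * s) ≤ 1 / 1000 * (142 / 100 * s) :=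
      mul_le_mul A5 A6 (by positivity) (by norm_num)
    rw [← hs]
    linarith
  · -- the upper bound
    rw [← hs]
    calc (∫ u in (-1 : ℝ)..1, Real.exp (-(lam * (u ^ 2 / (1 + u ^ 2)))))
        ≤ ∫ u in (-1 : ℝ)..1, Real.exp (-(lam / 2) * u ^ 2) := by
          refine intervalIntegral.integral_mono_on (by norm_num) (C1.intervalIntegrable _ _)
            (Continuous.intervalIntegrable (by fun_prop) _ _) Eup
      _ ≤ ∫ u, Real.exp (-(lam / 2) * u ^ 2) := by
          rw [intervalIntegral.integral_of_le (by norm_num)]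
          exact setIntegral_le_integral I1 (Filter.Eventually.of_forall fun u => (Real.exp_pos _).le)
      _ = √2 * s := G1
      _ ≤ _ := mul_le_mul_of_nonneg_right h2a hs0.le

end Pool.Agent.K1H66.OP
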