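import Pool.Agent.K1H72.OP.Stm

/-! Project OP, piece OP-14: the theta series near `q = -1` (helper66). -/

set_option autoImplicit false

namespace Pool.Agent.K1H66.OP.TN

open Complex K1H72.OP

theorem two_mul_half (n : ℤ) : 2 * (n * (n + 1) / 2) = n * (n + 1) :=
  Int.mul_ediv_cancel' (Int.even_mul_succ_self n).two_dvd

theorem sign (n : ℤ) : (-1 : ℂ) ^ (n * (n + 1) / 2) =
    (1 + I) / 2 * I ^ n + (1 - I) / 2 * (-I) ^ n := by
  have h4 : (I : ℂ) ^ (4 : ℤ) = 1 := by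
    rw [show (4 : ℤ) = ((4 : ℕ) : ℤ) by norm_num, zpow_natCast, I_pow_four]
  have h4' : (-I : ℂ) ^ (4 : ℤ) = 1 := by
    rw [show (4 : ℤ) = ((4 : ℕ) : ℤ) by norm_num, zpow_natCast, neg_pow, I_pow_four]; norm_num
  have hI : (I : ℂ) ≠ 0 := I_ne_zero
  have hI' : (-I : ℂ) ≠ 0 := neg_ne_zero.2 I_ne_zero
  obtain ⟨k, r, hr0, hr4, hn⟩ : ∃ k r : ℤ, 0 ≤ r ∧ r < 4 ∧ n = 4 * k + r :=
    ⟨n / 4, n % 4, Int.emod_nonneg _ (by norm_num), Int.emod_lt_of_pos _ (by norm_num),
      (Int.mul_ediv_add_emod n 4).symm⟩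
  have e1 : (I : ℂ) ^ n = I ^ r := by
    rw [hn, zpow_add₀ hI, zpow_mul, h4, one_zpow, one_mul]
  have e2 : (-I : ℂ) ^ n = (-I) ^ r := by
    rw [hn, zpow_add₀ hI', zpow_mul, h4', one_zpow, one_mul]
  rw [e1, e2]
  have hh := two_mul_half n
  obtain rfl | rfl | rfl | rfl : r = 0 ∨ r = 1 ∨ r = 2 ∨ r = 3 := by omega
  · have : n * (n + 1) / 2 = 2 * (4 * k ^ 2 + k) := by
      apply mul_left_cancel₀ (two_ne_zero (α := ℤ)); rw [hh, hn]; ring
    rw [this, Even.neg_one_zpow (even_two_mul _)]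
    simp only [zpow_zero]
    ring
  · have : n * (n + 1) / 2 = 2 * (4 * k ^ 2 + 3 * k) + 1 := by
      apply mul_left_cancel₀ (two_ne_zero (α := ℤ)); rw [hh, hn]; ring
    rw [this, Odd.neg_one_zpow (odd_two_mul_add_one _)]
    simp only [zpow_one]
    linear_combination (-1 : ℂ) * I_sq
  · have : n * (n + 1) / 2 = 2 * (4 * k ^ 2 + 5 * k + 1) + 1 := by
      apply mul_left_cancel₀ (two_ne_zero (α := ℤ)); rw [hh, hn]; ring
    rw [this, Odd.neg_one_zpow (odd_two_mul_add_one _)]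
    rw [show (2 : ℤ) = ((2 : ℕ) : ℤ) by norm_num, zpow_natCast, zpow_natCast, neg_sq, I_sq]
    ring
  · have : n * (n + 1) / 2 = 2 * (4 * k ^ 2 + 7 * k + 3) := by
      apply mul_left_cancel₀ (two_ne_zero (α := ℤ)); rw [hh, hn]; ring
    rw [this, Even.neg_one_zpow (even_two_mul _)]
    rw [show (3 : ℤ) = ((3 : ℕ) : ℤ) by norm_num, zpow_natCast, zpow_natCast]
    have h3 : (I : ℂ) ^ 3 = -I := by rw [pow_succ, I_sq]; ring
    have h3' : (-I : ℂ) ^ 3 = I := by rw [Odd.neg_pow (by decide), h3]; ring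
    rw [h3, h3']
    linear_combination (1 : ℂ) * I_sq

theorem summ {τ : ℂ} (hτ : 0 < τ.re) (β : ℂ) :
    Summable fun n : ℤ => cexp (-τ * (n : ℂ) ^ 2 / 2 + β * n) := by
  have h := (summable_jacobiTheta₂_term_iff (β / (2 * Real.pi * I)) (I * τ / (2 * Real.pi))).2 (by
    have e : I * τ / (2 * Real.pi) = ((1 / (2 * Real.pi) : ℝ) : ℂ) * (I * τ) := by
      push_cast; ring
    rw [e, im_ofReal_mul]
    have : (I * τ).im = τ.re := by simp
    rw [this]
    positivity)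
  refine h.congr fun n => ?_
  unfold jacobiTheta₂_term
  congr 1
  have hpi : (Real.pi : ℂ) ≠ 0 := by exact_mod_cast Real.pi_ne_zero
  have hI : (I : ℂ) ≠ 0 := I_ne_zero
  field_simp
  rw [I_sq]
  ring

theorem term (τ : ℂ) (n : ℤ) :
    (3 : ℂ) ^ n * (-cexp (-τ)) ^ (n * (n + 1) / 2) =
      (1 + I) / 2 * cexp (-τ * (n : ℂ) ^ 2 / 2 +
        ((Real.log 3 : ℝ) - τ / 2 + ((Real.pi / 2 : ℝ) : ℂ) * I) * n) +
      (1 - I) / 2 * cexp (-τ * (n : ℂ) ^ 2 / 2 +
        ((Real.log 3 : ℝ) - τ / 2 + ((-(Real.pi / 2) : ℝ) : ℂ) * I) * n) := by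
  have hk : ((n * (n + 1) / 2 : ℤ) : ℂ) = (n : ℂ) * (n + 1) / 2 := by
    have := two_mul_half n
    have h2 : (2 : ℂ) * ((n * (n + 1) / 2 : ℤ) : ℂ) = (n : ℂ) * (n + 1) := by exact_mod_cast this
    rw [← h2]; ring
  have h3 : (3 : ℂ) ^ n = cexp ((n : ℂ) * (Real.log 3 : ℝ)) := by
    rw [exp_int_mul, ← ofReal_exp, Real.exp_log (by norm_num)]
    norm_num
  have hq : (-cexp (-τ)) ^ (n * (n + 1) / 2) =
      (-1 : ℂ) ^ (n * (n + 1) / 2) * cexp ((n : ℂ) * (n + 1) / 2 * (-τ)) := by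
    rw [← hk, exp_int_mul, ← mul_zpow]
    congr 1
    ring
  have hI1 : cexp (((Real.pi / 2 : ℝ) : ℂ) * I) = I := by
    rw [exp_mul_I, ← ofReal_cos, ← ofReal_sin, Real.cos_pi_div_two, Real.sin_pi_div_two]
    simp
  have hI2 : cexp (((-(Real.pi / 2) : ℝ) : ℂ) * I) = -I := by
    rw [exp_mul_I, ← ofReal_cos, ← ofReal_sin, Real.cos_neg, Real.sin_neg, Real.cos_pi_div_two,
      Real.sin_pi_div_two]
    simp
  have hp : I ^ n = cexp ((n : ℂ) * (((Real.pi / 2 : ℝ) : ℂ) * I)) := by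
    rw [exp_int_mul, hI1]
  have hm : (-I) ^ n = cexp ((n : ℂ) * (((-(Real.pi / 2) : ℝ) : ℂ) * I)) := by
    rw [exp_int_mul, hI2]
  rw [hq, sign, h3, hp, hm]
  have : ∀ x : ℂ, cexp ((n : ℂ) * (Real.log 3 : ℝ)) * (cexp ((n : ℂ) * x) *
      cexp ((n : ℂ) * (n + 1) / 2 * (-τ))) =
      cexp (-τ * (n : ℂ) ^ 2 / 2 + ((Real.log 3 : ℝ) - τ / 2 + x) * n) := by
    intro x
    rw [← exp_add, ← exp_add]
    congr 1
    ring
  rw [← this, ← this]
  ring

/-- the exponent of a term after Poisson summation -/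
theorem expo {t u L φ : ℝ} (ht : 0 < t) :
    (((L : ℂ) - tau t (t * u) / 2 + (φ : ℂ) * I) ^ 2 / (2 * tau t (t * u))) =
      ((L ^ 2 / (2 * t) - L / 2 + t / 8 - (φ + u * L) ^ 2 / (2 * t * (1 + u ^ 2)) : ℝ) : ℂ) +
      ((((L ^ 2 - φ ^ 2) * u + 2 * L * φ) / (2 * t * (1 + u ^ 2)) - φ / 2 - t * u / 8 : ℝ) : ℂ) *
        I := by
  have hτ : tau t (t * u) ≠ 0 := by
    intro h
    have := congrArg Complex.re h
    simp [tau] at this
    linarith
  rw [div_eq_iff (by simpa using hτ)]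
  have hu : (1 + u ^ 2) ≠ 0 := by positivity
  apply Complex.ext
  · simp only [tau, pow_two, mul_re, add_re, sub_re, div_ofNat_re, div_ofNat_im, add_im, sub_im,
      mul_im, ofReal_re, ofReal_im, I_re, I_im, re_ofNat, im_ofNat]
    field_simp
    ring
  · simp only [tau, pow_two, mul_re, add_re, sub_re, div_ofNat_re, div_ofNat_im, add_im, sub_im,
      mul_im, ofReal_re, ofReal_im, I_re, I_im, re_ofNat, im_ofNat]
    field_simp
    ring

/-- two-sided geometric series -/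
theorem geo {r : ℝ} (h0 : 0 ≤ r) (h1 : r < 1) :
    HasSum (fun m : ℤ => r ^ m.natAbs) ((1 - r)⁻¹ + r * (1 - r)⁻¹) := by
  refine HasSum.of_nat_of_neg_add_one ?_ ?_
  · simpa using hasSum_geometric_of_lt_one h0 h1
  · have := (hasSum_geometric_of_lt_one h0 h1).mul_left r
    refine this.congr_fun ?_ |> fun h => h
    intro n
    have : (-((n : ℤ) + 1)).natAbs = n + 1 := by omega
    simp only [this, pow_succ]
    ring

/-- the bound for each of the two theta series -/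
theorem half (h : S_TP) {t u ε : ℝ} (ht : 0 < t) (ht1 : t ≤ 1 / 90) (hu : |u| ≤ 1)
    (hε : ε = 1 ∨ ε = -1) :
    ‖∑' n : ℤ, cexp (-tau t (t * u) * (n : ℂ) ^ 2 / 2 +
      ((Real.log 3 : ℝ) - tau t (t * u) / 2 + ((ε * (Real.pi / 2) : ℝ) : ℂ) * I) * n)‖ ≤
      √(2 * Real.pi / t) * (Real.exp ((Real.log 3) ^ 2 / (2 * t) - Real.log 3 / 2 + t / 8 -
        (Real.pi / 2 - |u| * Real.log 3) ^ 2 / (2 * t * (1 + u ^ 2))) * (1001 / 1000)) := by
  obtain ⟨L, hL⟩ : ∃ L, L = Real.log 3 := ⟨_, rfl⟩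
  rw [← hL]
  have hL0 : 0 < L := by rw [hL]; exact Real.log_pos (by norm_num)
  have hL1 : L ≤ 3 / 2 := by
    rw [hL, Real.log_le_iff_le_exp (by norm_num)]
    have := Real.quadratic_le_exp_of_nonneg (x := 3 / 2) (by norm_num)
    linarith
  have hpi := Real.pi_gt_three
  have hpi4 := Real.pi_le_four
  have hre : (tau t (t * u)).re = t := by simp [tau]
  have hτ : 0 < (tau t (t * u)).re := by rw [hre]; exact ht
  obtain ⟨c, hc⟩ : ∃ c, c = 1 / (2 * t * (1 + u ^ 2)) := ⟨_, rfl⟩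
  have hu2 : u ^ 2 ≤ 1 := by
    rw [← sq_abs]; nlinarith [abs_nonneg u]
  have hc0 : 45 / 2 ≤ c := by
    rw [hc, le_div_iff₀ (by positivity)]
    nlinarith [mul_pos ht (by positivity : 0 < 1 + u ^ 2)]
  obtain ⟨s, hs⟩ : ∃ s, s = Real.pi / 2 - |u| * L := ⟨_, rfl⟩
  have hs0 : 0 ≤ s := by
    have : |u| * L ≤ 1 * L := mul_le_mul_of_nonneg_right hu hL0.le
    rw [hs]; linarith
  rw [← hs]
  obtain ⟨A, hA⟩ : ∃ A, A = Real.exp (L ^ 2 / (2 * t) - L / 2 + t / 8 -
    s ^ 2 / (2 * t * (1 + u ^ 2))) := ⟨_, rfl⟩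
  have hA0 : 0 < A := by rw [hA]; exact Real.exp_pos _
  rw [← hA]
  obtain ⟨r, hr⟩ : ∃ r, r = Real.exp (-(9 * c)) := ⟨_, rfl⟩
  have hr0 : 0 < r := by rw [hr]; exact Real.exp_pos _
  have hr1 : r ≤ 1 / 10000 := by
    rw [hr, Real.exp_neg, ← one_div]
    refine one_div_le_one_div_of_le (by norm_num) ?_
    have h1 := Real.quadratic_le_exp_of_nonneg (x := 9 * c) (by positivity)
    nlinarith
  rw [h _ _ hτ, norm_mul]
  refine mul_le_mul ?_ ?_ (norm_nonneg _) (Real.sqrt_nonneg _)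
  · have e : ((1 / 2 : ℂ)) = (((1 / 2 : ℝ)) : ℂ) := by push_cast; rfl
    rw [e, norm_cpow_real, ← Real.sqrt_eq_rpow]
    refine Real.sqrt_le_sqrt ?_
    rw [norm_div]
    have e2 : ‖(2 * (Real.pi : ℂ))‖ = 2 * Real.pi := by
      rw [norm_mul, norm_real, Real.norm_of_nonneg Real.pi_pos.le]; norm_num
    rw [e2]
    refine div_le_div_of_nonneg_left (by positivity) ht ?_
    calc t = |(tau t (t * u)).re| := by rw [hre, abs_of_pos ht]
      _ ≤ _ := abs_re_le_norm _
  · refine (tsum_of_norm_bounded ((geo hr0.le (by linarith)).mul_left A) ?_).trans ?_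
    · intro m
      obtain ⟨φ, hφ⟩ : ∃ φ : ℝ, φ = ε * (Real.pi / 2) + 2 * Real.pi * m := ⟨_, rfl⟩
      have e1 : (L : ℂ) - tau t (t * u) / 2 + ((ε * (Real.pi / 2) : ℝ) : ℂ) * I +
          2 * (Real.pi : ℂ) * I * m = (L : ℂ) - tau t (t * u) / 2 + (φ : ℂ) * I := by
        rw [hφ]; push_cast; ring
      rw [e1, expo ht, norm_exp]
      have e2 : ∀ a b : ℝ, ((a : ℂ) + (b : ℂ) * I).re = a := fun a b => by simp
      rw [e2, hA, hr, ← Real.exp_nat_mul, ← Real.exp_add]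
      apply Real.exp_le_exp.2
      have h1 : Real.pi / 2 + Real.pi * (m.natAbs : ℝ) ≤ |φ| := by
        rcases hε with rfl | rfl
        · rcases le_total 0 m with hm | hm
          · have e3 : (m.natAbs : ℝ) = (m : ℝ) := by
              have : ((m.natAbs : ℤ) : ℝ) = (m : ℝ) := by rw [Int.natAbs_of_nonneg hm]
              rw [← this]; norm_num
            rw [e3, hφ]
            have : (0 : ℝ) ≤ m := by exact_mod_cast hm
            refine le_trans ?_ (le_abs_self _)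
            nlinarith
          · rcases hm.eq_or_lt with h0 | h0
            · subst h0
              rw [hφ]
              refine le_trans (le_of_eq ?_) (le_abs_self _)
              simp
            · have e3 : (m.natAbs : ℝ) = -(m : ℝ) := by
                have : ((m.natAbs : ℤ) : ℝ) = -(m : ℝ) := by
                  rw [Int.ofNat_natAbs_of_nonpos hm]; push_cast; ring
                rw [← this]; norm_num
              rw [e3, hφ]
              have : (m : ℝ) ≤ -1 := by exact_mod_cast (by omega : m ≤ -1)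
              refine le_trans ?_ (neg_le_abs _)
              nlinarith
        · rcases le_total m 0 with hm | hm
          · have e3 : (m.natAbs : ℝ) = -(m : ℝ) := by
              have : ((m.natAbs : ℤ) : ℝ) = -(m : ℝ) := by
                rw [Int.ofNat_natAbs_of_nonpos hm]; push_cast; ring
              rw [← this]; norm_num
            rw [e3, hφ]
            have : (m : ℝ) ≤ 0 := by exact_mod_cast hm
            refine le_trans ?_ (neg_le_abs _)
            nlinarith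
          · rcases hm.eq_or_lt with h0 | h0
            · subst h0
              rw [hφ]
              refine le_trans (le_of_eq ?_) (neg_le_abs _)
              simp
            · have e3 : (m.natAbs : ℝ) = (m : ℝ) := by
                have : ((m.natAbs : ℤ) : ℝ) = (m : ℝ) := by rw [Int.natAbs_of_nonneg hm]
                rw [← this]; norm_num
              rw [e3, hφ]
              have : (1 : ℝ) ≤ m := by exact_mod_cast (by omega : 1 ≤ m)
              refine le_trans ?_ (le_abs_self _)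
              nlinarith
      have hN : (0 : ℝ) ≤ (m.natAbs : ℝ) := Nat.cast_nonneg _
      have h2 : s + Real.pi * (m.natAbs : ℝ) ≤ |φ + u * L| := by
        have h3 : |φ| ≤ |φ + u * L| + |u| * L := by
          have h4 : |φ| ≤ |φ + u * L| + |u * L| := by
            calc |φ| = |(φ + u * L) - u * L| := by ring_nf
              _ ≤ _ := abs_sub _ _
          rwa [abs_mul u L, abs_of_pos hL0] at h4
        rw [hs]; linarith
      have h5 : s ^ 2 + 9 * (m.natAbs : ℝ) ≤ (φ + u * L) ^ 2 := by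
        have h6 : (s + Real.pi * (m.natAbs : ℝ)) ^ 2 ≤ (φ + u * L) ^ 2 := by
          rw [← sq_abs (φ + u * L)]
          exact pow_le_pow_left₀ (by positivity) h2 2
        have h7 : (m.natAbs : ℝ) ≤ (m.natAbs : ℝ) ^ 2 := by
          rcases Nat.eq_zero_or_pos m.natAbs with h0 | h0
          · rw [h0]; norm_num
          · have : (1 : ℝ) ≤ (m.natAbs : ℝ) := by exact_mod_cast h0
            nlinarith
        have h8 : 0 ≤ s * (m.natAbs : ℝ) := by positivity
        have hp2 : 9 ≤ Real.pi ^ 2 := by nlinarith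
        have h81 : 9 * (m.natAbs : ℝ) ≤ Real.pi ^ 2 * (m.natAbs : ℝ) ^ 2 := by
          calc 9 * (m.natAbs : ℝ) ≤ 9 * (m.natAbs : ℝ) ^ 2 := by linarith
            _ ≤ _ := mul_le_mul_of_nonneg_right hp2 (by positivity)
        have h82 : 0 ≤ s * (m.natAbs : ℝ) * Real.pi := mul_nonneg h8 (by linarith)
        have h83 : (s + Real.pi * (m.natAbs : ℝ)) ^ 2 = s ^ 2 + 2 * (s * (m.natAbs : ℝ) * Real.pi) +
            Real.pi ^ 2 * (m.natAbs : ℝ) ^ 2 := by ring
        linarith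
      have h9 : ∀ x : ℝ, x / (2 * t * (1 + u ^ 2)) = c * x := by
        intro x; rw [hc]; ring
      rw [h9, h9]
      have h10 := mul_le_mul_of_nonneg_left h5 (by linarith : 0 ≤ c)
      nlinarith
    · refine mul_le_mul_of_nonneg_left ?_ hA0.le
      have h1 : (1 - r)⁻¹ ≤ 10001 / 10000 * (1 : ℝ) + 1 / 10000 := by
        rw [inv_le_comm₀ (by linarith) (by norm_num)]
        have : (10001 / 10000 * (1 : ℝ) + 1 / 10000)⁻¹ ≤ 1 - 1 / 10000 := by norm_num
        linarith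
      have h2 : 0 < (1 - r)⁻¹ := inv_pos.2 (by linarith)
      nlinarith

end Pool.Agent.K1H66.OP.TN

namespace Pool.Agent.K1H66.OP

open Complex K1H72.OP TN

theorem t_TN (h : S_TP) : S_TN := by
  intro t u ht ht1 hu
  have hre : (tau t (t * u)).re = t := by simp [tau]
  have hτ : 0 < (tau t (t * u)).re := by rw [hre]; exact ht
  have hTh : Th (-qq t (t * u)) =
      (1 + I) / 2 * ∑' n : ℤ, cexp (-tau t (t * u) * (n : ℂ) ^ 2 / 2 +
        ((Real.log 3 : ℝ) - tau t (t * u) / 2 + ((1 * (Real.pi / 2) : ℝ) : ℂ) * I) * n) +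
      (1 - I) / 2 * ∑' n : ℤ, cexp (-tau t (t * u) * (n : ℂ) ^ 2 / 2 +
        ((Real.log 3 : ℝ) - tau t (t * u) / 2 + ((-1 * (Real.pi / 2) : ℝ) : ℂ) * I) * n) := by
    rw [← tsum_mul_left, ← tsum_mul_left, ← Summable.tsum_add ((summ hτ _).mul_left _)
      ((summ hτ _).mul_left _)]
    unfold Th qq
    refine tsum_congr fun n => ?_
    rw [term, one_mul, neg_one_mul]
  have h1 := half h ht ht1 hu (Or.inl rfl : (1 : ℝ) = 1 ∨ (1 : ℝ) = -1)
  have h2 := half h ht ht1 hu (Or.inr rfl : (-1 : ℝ) = 1 ∨ (-1 : ℝ) = -1)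
  obtain ⟨L, hL⟩ : ∃ L, L = Real.log 3 := ⟨_, rfl⟩
  rw [hTh]
  rw [← hL] at h1 h2 ⊢
  obtain ⟨B, hB⟩ : ∃ B, B = Real.exp ((L ^ 2 / 2 -
      (Real.pi / 2 - |u| * L) ^ 2 / (2 * (1 + u ^ 2))) / t) := ⟨_, rfl⟩
  have hB0 : 0 < B := by rw [hB]; exact Real.exp_pos _
  obtain ⟨x, hx⟩ : ∃ x, x = Real.exp (-(L / 2)) := ⟨_, rfl⟩
  have hx0 : 0 < x := by rw [hx]; exact Real.exp_pos _
  have hx2 : x ^ 2 = 1 / 3 := by
    rw [hx, ← Real.exp_nat_mul, hL]
    have : ((2 : ℕ) : ℝ) * (-(Real.log 3 / 2)) = -Real.log 3 := by push_cast; ring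
    rw [this, Real.exp_neg, Real.exp_log (by norm_num)]
    norm_num
  have hy : Real.exp (t / 8) ≤ 1002 / 1000 := by
    have h3 : t / 8 ≤ 1 / 720 := by linarith
    have h4 : Real.exp (1 / 720) ≤ 1 / (1 - 1 / 720) := by
      have := Real.one_sub_le_exp_neg (1 / 720)
      rw [Real.exp_neg] at this
      rw [le_div_iff₀ (by norm_num)]
      have h5 : 0 < Real.exp (1 / 720) := Real.exp_pos _
      have h6 : (1 - 1 / 720) * Real.exp (1 / 720) ≤ 1 := by
        have := mul_le_mul_of_nonneg_right this h5.le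
        rwa [inv_mul_cancel₀ h5.ne'] at this
      linarith
    exact (Real.exp_le_exp.2 h3).trans (h4.trans (by norm_num))
  have hexp : Real.exp (L ^ 2 / (2 * t) - L / 2 + t / 8 -
      (Real.pi / 2 - |u| * L) ^ 2 / (2 * t * (1 + u ^ 2))) = B * x * Real.exp (t / 8) := by
    rw [hB, hx, ← Real.exp_add, ← Real.exp_add]
    congr 1
    have : (1 + u ^ 2) ≠ 0 := by positivity
    field_simp
    ring
  rw [hexp] at h1 h2
  rw [← hB]
  obtain ⟨R, hR⟩ : ∃ R, R = √(2 * Real.pi / t) := ⟨_, rfl⟩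
  rw [← hR] at h1 h2 ⊢
  have hR0 : 0 ≤ R := by rw [hR]; exact Real.sqrt_nonneg _
  have n1 : ‖(1 + I) / 2‖ = √2 / 2 := by
    rw [norm_div]
    have : ‖(1 + I : ℂ)‖ = √2 := by
      rw [Complex.norm_def, normSq_apply]; norm_num
    rw [this]; norm_num
  have n2 : ‖(1 - I) / 2‖ = √2 / 2 := by
    rw [norm_div]
    have : ‖(1 - I : ℂ)‖ = √2 := by
      rw [Complex.norm_def, normSq_apply]; norm_num
    rw [this]; norm_num
  have h22 : √2 ^ 2 = 2 := Real.sq_sqrt (by norm_num)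
  have h20 : 0 ≤ √2 := Real.sqrt_nonneg _
  have hsx : √2 * x ≤ 8166 / 10000 := by
    apply le_of_sq_le_sq _ (by norm_num)
    rw [mul_pow, h22, hx2]; norm_num
  refine (norm_add_le _ _).trans ?_
  rw [norm_mul, norm_mul, n1, n2]
  have e1 := mul_le_mul_of_nonneg_left h1 (by positivity : 0 ≤ √2 / 2)
  have e2 := mul_le_mul_of_nonneg_left h2 (by positivity : 0 ≤ √2 / 2)
  have e3 : √2 * x * Real.exp (t / 8) ≤ 8166 / 10000 * (1002 / 1000) :=
    mul_le_mul hsx hy (Real.exp_pos _).le (by norm_num)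
  have e4 : 0 ≤ R * B := by positivity
  have e5 := mul_le_mul_of_nonneg_left e3 e4
  nlinarith

end Pool.Agent.K1H66.OP
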